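import Pool.Agent.Lib.MP_859dd5_ag.GC.ResD

/-!
# Unramified classes on varieties dominated by families of diagonal hypersurfaces

Let `k` be an arbitrary field containing the finite field `κ`, for example the function field of
an arbitrary variety `B` over `κ`, and let `L` be the function field of the diagonal hypersurface
`a_0 + a_1 x_1 ^ N + ⋯ + a_{n+1} x_{n+1} ^ N = 0` over `k`, with arbitrary nonzero coefficients
`a_i` in `k` (`IsDiagonal`). Let `K` be a field such that `L` is finite over a purely transcendental
extension of `K`; so `K` is the function field of an arbitrary variety dominated by the total space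
of the family. Let `i ≥ 2`. For all prime numbers `l ≠ p`, the unramified classes of
`H^i (K, ℚ_l/ℤ_l(w))` come from `k`, up to a constant which depends neither on the fields nor on the
coefficients nor on `i` and `l` (`Descends`), and they are killed by an explicit number if those of
`k` are killed by a number (`Kills`), if each sequence `α` of exponents with sum zero and without
vanishing partial sums satisfies one of the following conditions.

* An automorphism of `L` over `k` and `K` moves the monomial with exponents `α`
  (`HasDiagonalAut`).
* The number `N` is a prime number, and `-1` is a power of `p` modulo `N` and `n ≥ 2`, or there are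
  two pairs of disjoint partial sums which differ by the factors `-p ^ a` and `-p ^ b` modulo `N`
  (`IsPaired`).
* The element `∏ a_i ^ α_i` becomes an `N`-th power in a finite extension of `k` which is purely
  transcendental over `κ` (`RationalSplitting`), and, if `n = 2 w` and `N` is not a prime number,
  the Jacobi sum is not a power of the order of `κ`.
* The number `D` kills, up to classes of `k`, the unramified classes of the subfield of `L`
  generated by this monomial and the `x_i ^ N` (`Descends`, `monomialField`).

The same holds for each functor `A` of fields with unramified classes (`UFun`), of weight `w` and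
with specialization, in place of the Galois cohomology groups, also with the following condition.

* The element `∏ a_i ^ α_i` becomes an `N`-th power in a finite extension `k'` of `k`, and the
  polynomial `P_α` in the Frobenius of `k'` kills the unramified classes of the product of `k'` and
  of the constant cover with exponents `α` (`FrobeniusSplitting`); no eigenvalue of the Frobenius
  of this cover is then compatible with `P_α`.

The last statement is the example of Milnor K-theory.

Here `H^i (K, ℚ_l/ℤ_l(w))` is the cohomology of the homogeneous continuous cochains of the absolute
Galois group of `K`, which acts on `ℚ_l/ℤ_l` by the `w`-th power of the cyclotomic character. A class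
is unramified (`IsUnrCocycle`) if, for each discrete valuation ring of `K`, its restriction to the
decomposition group comes from the quotient by the inertia group. The definitions in the namespace
`UnrGal` are written in elementary terms in `GC/N0.lean`; `GC/N1.lean` proves that they agree with
those in terms of cohomology groups. `GC/S2.lean` proves that the groups of positive degree of an
algebraically closed field vanish and that the fields `K` and `K(t)` have the same unramified classes
of degree `i ≥ 2`.
-/

namespace Pool.Agent.Results.MP_859dd5_ag.DiagonalFamilies

open UnrA UnrA.Fer Polynomial UnrGal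

universe u

theorem result (p f N n w : ℕ) (hp : p.Prime) (hf : 0 < f) (hN : 2 ≤ N)
    (hpN : p.Coprime N) (hn : 0 < n) :
    ∃ s : ℕ, 0 < s ∧ N * (p ^ f - 1) ∣ (p ^ f) ^ s - 1 ∧
      ∀ P : (Fin (n + 2) → ZMod N) → ℤ[X], ∃ E : ℕ, 0 < E ∧
      ∀ {κ k K L : Type u} [Field κ] [Fintype κ] [Field k] [Field K] [Field L] [Algebra κ k]
        [Algebra k L] [Algebra K L] (_ : Fintype.card κ = (p ^ f) ^ s)
        {a : Fin (n + 2) → k} {x : Fin (n + 2) → L} (_ : IsDiagonal N a x) {ζ : κ}
        (_ : IsPrimitiveRoot ζ N) {d : ℕ} {u : Fin d → L} (_ : IsFiniteOver K u) (D : ℕ),
        (∀ i, 2 ≤ i → (∀ α : Fin (n + 2) → ZMod N, Fer.IsMinimalZeroSum α →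
            IsExplicit D p N w K a x ζ α ∨
              Descends p w i D k (monomialField N k x α) (monomialField N k x α)) →
          Descends p w i (E * D) k K L ∧
            ∀ C : ℕ, Kills p w i C k → Kills p w i (C * (E * D) * degreeOver K u) K) ∧
        (∀ A : UFun.{u, u}, A.HasWeight κ (Fintype.card κ) w → A.Specializes →
          (∀ α : Fin (n + 2) → ZMod N, Fer.IsMinimalZeroSum α →
            IsExplicit D p N w K a x ζ α ∨ KillsOver A D k (monomialField N k x α) ∨
              IsFrobenius A D N w κ a (P α) α) →
          ComesFrom A (E * D) k K L ∧
            ∀ C : ℕ, KillsAll A C k → KillsAll A (C * (E * D) * degreeOver K u) K) ∧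
        ((∀ α : Fin (n + 2) → ZMod N, Fer.IsMinimalZeroSum α →
            IsExplicit D p N w K a x ζ α) →
          ∀ m C : ℕ, KillsMilnor m w C k →
            KillsMilnor m w (C * (E * D) * degreeOver K u) K) :=
  GC.diagonal_gal.{u} p f N n w hp hf hN hpN hn

end Pool.Agent.Results.MP_859dd5_ag.DiagonalFamilies
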