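import Pool.Agent.Lib.MP_859dd5_ag.GC.ResE

/-!
# Unramified classes on quotients of products of elliptic curves over arbitrary varieties

Let `κ` be a finite field of characteristic `p` with `q` elements, `2 ≠ 0`, and let `E 1, …, E l` be
elliptic curves over `κ`, not isogenous to each other over an algebraic closure of `κ`, such that
the endomorphisms of the supersingular curves are defined over `κ` (`AreCurves`). Let `M` be the
function field of the product of `n` of these curves over an arbitrary field `K` containing `κ`,
with a finite group `G` acting on `M` by automorphisms preserving `K` and acting on the points by
permutations, signs and translations by points over `K`, and let `L` be a field fixed by `G` such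
that `M` is finite over a purely transcendental extension of `L`. Let `w > 0`. Then there is a
positive integer which kills, for each `i ≥ 2` and all prime numbers `l ≠ p`, the unramified classes
of `H^i (L, ℚ_l/ℤ_l(w))`, if each set `I` of indices satisfies one of the following conditions,
where `K_I` is the field of the elements of `K` fixed by the elements of `G` preserving `I` with
sign one.

* An element of `G` which preserves `I` with sign `-1` fixes `K`.
* The field `K_I` has a finite extension which is the function field over `κ` of the product of a
  projective space and of some curves `E c` (`Dominated`).
* The supersingular curve occurs twice in `I`.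
* The given number `D > 0` kills, for all prime numbers `l ≠ p`, the unramified classes of
  `H^i (·, ℚ_l/ℤ_l(w))` of the function field of the product over `K_I` of the curves with index in
  `I` (`KillsProduct`). No other condition on `K_I` is needed.

The same holds for every functor `A` of fields with unramified classes, of weight `w > 0` over `κ`,
in place of the Galois cohomology groups, and for Milnor K-theory modulo `m`.

Example: let `Z → B` be a Galois cover with group `Γ` contained in the symmetric group of
`{1, …, n}`, where `B` is rational, let `E` be an elliptic curve, and let `G` be the group of the
signed permutations of determinant one whose permutation belongs to `Γ`. Then the theorem applies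
to the function field `L` of the quotient of `Z × E ^ n` by `G`, with `K = κ(Z)`: a set `I` which is
not empty and not full is preserved by the change of the signs of two coordinates, one in `I` and
one not in `I`, which acts on `I` with sign `-1` and fixes `K`; for `I` empty or full, all elements
of `G` preserve `I` with sign one, and `K_I` is the function field of `B`.

Here `H^i (K, ℚ_l/ℤ_l(w))` is the cohomology of the homogeneous continuous cochains of the absolute
Galois group of `K`, which acts on `ℚ_l/ℤ_l` by the `w`-th power of the cyclotomic character. A class
is unramified (`IsUnrCocycle`) if, for each discrete valuation ring of `K`, its restriction to the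
decomposition group comes from the quotient by the inertia group. The definitions in the namespace
`UnrGal` are written in elementary terms in `GC/N0.lean`; `GC/N1.lean` proves that they agree with
those in terms of cohomology groups. `GC/S2.lean` proves that the groups of positive degree of an
algebraically closed field vanish and that the fields `K` and `K(t)` have the same unramified classes
of degree `i ≥ 2`.
-/

namespace Pool.Agent.Results.MP_859dd5_ag.EllipticQuotients

open UnrA UnrG Polynomial WeierstrassCurve UnrGal

universe u z

theorem result {κ L M : Type u} [Field κ] [Finite κ] [Field L] [Field M] [Algebra κ M]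
    [Algebra L M] {p q l n : ℕ} [CharP κ p] {E : Fin l → WeierstrassCurve κ} {a : Fin l → ℤ}
    (hE : AreCurves.{u} q E a)
    {s : ℕ} {u : Fin s → M} (hu : AlgebraicIndependent L u)
    [FiniteDimensional (IntermediateField.adjoin L (Set.range u)) M]
    {K : IntermediateField κ M} {e : Fin n → Fin l} {x y : Fin n → M} (hM : IsProd E K e x y)
    (G : Subgroup (M ≃ₐ[κ] M)) [Finite G] (ρ : G → Equiv.Perm (Fin n)) (ε : G → Fin n → ℤˣ)
    (hG : IsAct E K e x y L G ρ ε) (w D : ℕ) (hw : 0 < w) (hD : 0 < D) :
    ∃ N : ℕ, 0 < N ∧
      (∀ i, 2 ≤ i → (∀ I : Finset (Fin n), IsSettled q E a K e G ρ ε I ∨
          KillsProduct p w i E (fixI K G ρ ε I) (fun i : {i // i ∈ I} => e i) D) →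
        Kills p w i N L) ∧
      (∀ A : UFun.{u, z}, A.HasWeight κ q w → (∀ I : Finset (Fin n),
        IsSettled q E a K e G ρ ε I ∨
          KillsProd A E (fixI K G ρ ε I) (fun i : {i // i ∈ I} => e i) D) →
        ∀ ξ ∈ A.nr L, N • ξ = 0) ∧
      ((∀ I : Finset (Fin n), IsSettled q E a K e G ρ ε I) → ∀ (m : ℕ) (ξ : MK m L),
        ξ ∈ MK.deg m L w → MK.Unr ξ → N • ξ = 0) :=
  GC.elliptic_gal.{u, z} hE hu hM G ρ ε hG w D hw hD

end Pool.Agent.Results.MP_859dd5_ag.EllipticQuotients
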