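import Pool.Agent.Lib.MP_859dd5_ag.GC.ResF

/-!
# Unramified classes on products of Fermat curves over arbitrary fields

Let `q = p ^ f` be a power of the prime `p`, let `N ≠ p` be a prime number, and let `n ≥ 0` and
`w ≥ 1`. There are positive integers `E` and `s` with the following properties. Let `κ` be a field
with `q ^ s` elements and let `k` be an arbitrary field which contains `κ`. Let `i ≥ 2`.

* First statement. For the function field `K` of a cyclic cover
  `v ^ N = D ∏ X_j ^ (c_j) (1 - X_j) ^ (d_j)` of the affine space over `k`, with an arbitrary
  nonzero `D` in `k` and exponents a part of which is balanced and has at least two nonzero `c_j`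
  (`HasBalancedPart`), the number `E` kills the unramified classes of `H^i (K, ℚ_l/ℤ_l(w))` modulo
  those of `k`, for all prime numbers `l ≠ p` (`Descends`). There is no other hypothesis.
* Second statement. Let `L` be the function field of the product of the curves
  `a_j x_j ^ N + b_j y_j ^ N = 1` over `k` and let `K` be an arbitrary subfield of `L`. Then `E * H`
  kills the unramified classes of `H^i (K, ℚ_l/ℤ_l(w))` modulo those of `k`, for all `l ≠ p`, if each
  nondegenerate character `(c, d)` satisfies one of the following conditions: its monomial is moved
  by an endomorphism of `L` over `k` and `K` (`IsMoved`); the twist of the character becomes an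
  `N`-th power in a rational extension of `k` (`IsPowerIn`); it has a balanced part
  (`HasBalancedPart`); the number `H` kills the unramified classes of its monomial field modulo those
  of `k`. If moreover `L` is finite over a purely transcendental extension of `K` and the unramified
  classes of `H^i (k, ℚ_l/ℤ_l(w))` are killed by a number, then those of `K` are killed by an
  explicit number (`IsBounded`). Those of `k` are killed by `H * (q ^ (s * w) - 1)` if `k` becomes
  rational in an extension of degree at most controlled by `H`.
* The same statements for all functors of fields with unramified classes (`UFun`) in place of the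
  Galois cohomology groups, where in the second condition the functor must have weight `w` and
  specializations.
* The last statement is the example of Milnor K-theory.

Here `H^i (K, ℚ_l/ℤ_l(w))` is the cohomology of the homogeneous continuous cochains of the absolute
Galois group of `K`, which acts on `ℚ_l/ℤ_l` by the `w`-th power of the cyclotomic character. A class
is unramified (`IsUnrCocycle`) if, for each discrete valuation ring of `K`, its restriction to the
decomposition group comes from the quotient by the inertia group. The definitions in the namespace
`UnrGal` are written in elementary terms in `GC/N0.lean`; `GC/N1.lean` proves that they agree with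
those in terms of cohomology groups. `GC/S2.lean` proves that the groups of positive degree of an
algebraically closed field vanish and that the fields `K` and `K(t)` have the same unramified classes
of degree `i ≥ 2`.
-/

namespace Pool.Agent.Results.MP_859dd5_ag.FermatFamilies

open UnrA UnrA.Fer UnrG UnrGal

universe u

theorem result {p f N : ℕ} (hp : p.Prime) (hf : 0 < f) (hN : N.Prime) (hpN : p ≠ N)
    (n : ℕ) {w : ℕ} (hw : 0 < w) :
    ∃ E s : ℕ, 0 < E ∧ 0 < s ∧ N * (p ^ f - 1) ∣ (p ^ f) ^ s - 1 ∧
      (∀ (κ k : Type u) [Field κ] [Field k] [Algebra κ k] (_ : Nat.card κ = (p ^ f) ^ s)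
        (c d : Fin n → ZMod N), HasBalancedPart p c d →
        ∀ (K : Type u) [Field K] [Algebra k K] (D : k) (X : Fin n → K) (v : K),
          IsCyclicCover N D X v c d →
            (∀ i, 2 ≤ i → Descends p w i E k K K) ∧ ∀ A : UFun.{u, u}, KillsRel A E k K) ∧
      ∀ (κ k K L : Type u) [Field κ] [Field k] [Field K] [Field L] [Algebra κ k] [Algebra k L]
        [Algebra K L] (_ : Nat.card κ = (p ^ f) ^ s) (a b : Fin n → k) (x y : Fin n → L)
        (_ : IsFermatProduct N a b x y) (ζ : k) (_ : IsPrimitiveRoot ζ N) (H : ℕ),
      (∀ i, 2 ≤ i →
        ((∀ c d : Fin n → ZMod N, IsNondegenerate c d → ¬ (c = 0 ∧ d = 0) →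
          IsMoved K ζ x y c d ∨
          IsPowerIn κ k N H (∏ j, (a j ^ (c j).val * b j ^ (d j).val)) ∨
          HasBalancedPart p c d ∨
          Descends p w i H k (monoField k x y c d) (monoField k x y c d)) →
        IsBounded p w i (E * H) k K L) ∧
        (IsPowerIn κ k N H (1 : k) → Kills p w i (H * (((p ^ f) ^ s) ^ w - 1)) k)) ∧
      (∀ (A : UFun.{u, u})
        (_ : ∀ c d : Fin n → ZMod N, IsNondegenerate c d → ¬ (c = 0 ∧ d = 0) →
          IsMoved K ζ x y c d ∨
          (A.Specializes ∧ A.HasWeight κ ((p ^ f) ^ s) w ∧
            IsPowerIn κ k N H (∏ j, (a j ^ (c j).val * b j ^ (d j).val))) ∨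
          HasBalancedPart p c d ∨ KillsRel A H k (monoField k x y c d)),
        IsBoundedBy A (E * H) k K L ∧
          (A.HasWeight κ ((p ^ f) ^ s) w → IsPowerIn κ k N H (1 : k) →
            KillsAll A (H * (((p ^ f) ^ s) ^ w - 1)) k)) ∧
      ∀ (m : ℕ)
        (_ : ∀ c d : Fin n → ZMod N, IsNondegenerate c d → ¬ (c = 0 ∧ d = 0) →
          IsMoved K ζ x y c d ∨
          IsPowerIn κ k N H (∏ j, (a j ^ (c j).val * b j ^ (d j).val)) ∨
          HasBalancedPart p c d)
        (_ : IsPowerIn κ k N H (1 : k)) (r : ℕ) (u : Fin r → L), IsFiniteOver K u →
        KillsMilnor m w (2 * (H * (((p ^ f) ^ s) ^ w - 1) * (E * H) * degreeOver K u)) K :=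
  GC.fermat_gal hp hf hN hpN n hw

end Pool.Agent.Results.MP_859dd5_ag.FermatFamilies
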