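import Pool.Agent.Lib.MP_859dd5_ag.SD.Main

/-!
# Unramified classes on varieties dominated by powers of a supersingular elliptic curve over a field

Let `κ` be a finite field of characteristic `p`, `2 ≠ 0`, and let `E` be an elliptic curve over `κ`
with noncommuting endomorphisms defined over `κ` (`IsSupersingular`); each supersingular curve has
them after a finite extension of `κ`. Let `k` be an arbitrary field containing `κ`, let `L` be the
function field of `E ^ n` over `k` (`IsPower`), and let `K` be a field between `k` and `L` such that
`L` is of degree `d` over a purely transcendental extension `K(v)` of `K`. So `K` is the function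
field of an arbitrary variety `X` over `k` which is dominated by `E ^ n`. There is a positive
integer `N`, which depends only on `E`, `n` and `d`, with the following properties. They hold for
the groups `H^i (·, ℚ_l/ℤ_l(w))`, for all `w`, all `i ≥ 2` and all prime numbers `l ≠ p` at once, and
for each functor `A` of fields with unramified classes (`UFun`), for example Milnor K-theory modulo
`m`. We say that the classes of `K` come from `k` up to `D` if each unramified class of `K`,
multiplied by `D`, comes from an unramified class of `k` (`KillsRel`, `Descends`).

(1) There are `n` points `T_j` of `E` over `K`, that is `n` rational maps from `X` to `E`, such that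
each unramified class of `K`, multiplied by `N`, is the sum of a class which comes from an
unramified class of `k` and of classes which come from unramified classes of the fields `k(T_j)`
generated by the coordinates of these points (`FromPoints`); each of these fields is `k` or
isomorphic to the function field `k(E)` of `E` over `k`. The points depend neither on the functor
nor on the class.

(2) If all points of `E` over `K` are points over `k` (`HasConstantPoints`), that is if `X` has no
nonconstant rational map to `E`, then the classes of `K`, and of each subfield `K₀` of `K`, come
from `k` up to `N`; and if moreover `C` kills the unramified classes of `k`, then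
`C * N * [K : K₀(t)]` kills those of `K₀`, if `K` is finite over a purely transcendental extension
`K₀(t)` of `K₀` (`IsBounded`, `IsBoundedBy`).

(3) If the classes of `k(E)` come from `k` up to `D` (`CurveDescends`), then the classes of `K` come
from `k` up to `N * D`, with the same consequences for the subfields `K₀` of `K` as in (2). In
particular this holds for all subfields `K₀` of `L`, which need not contain `k`.

(4) If `E` has a point over `K` which is not a point over `k`, then there is a positive integer `δ`
such that, for each functor and each `D`, if the classes of `K` come from `k` up to `D`, then the
classes of `k(E)` come from `k` up to `δ * D`. Moreover there is an unramified class of `K` for the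
functor `A₀`, which depends only on `E`, of which no positive multiple comes from `k`.

So there are two cases. Either `X` has no nonconstant rational map to `E`, and `N` kills the
unramified classes of `K` modulo those of `k` for each functor; or the exponents of the groups of
unramified classes of `K` and of `k(E)` modulo those of `k` agree for each functor up to factors
which do not depend on the functor, and these exponents are infinite for the functor `A₀`.

Here `H^i (K, ℚ_l/ℤ_l(w))` is the cohomology of the homogeneous continuous cochains of the absolute
Galois group of `K`, which acts on `ℚ_l/ℤ_l` by the `w`-th power of the cyclotomic character. A class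
is unramified (`IsUnrCocycle`) if, for each discrete valuation ring of `K`, its restriction to the
decomposition group comes from the quotient by the inertia group. The definitions in the namespace
`UnrGal` are written in elementary terms in `GC/N0.lean`, `GC/N2.lean` and `SD/Stm.lean`. `GC/S2.lean`
proves that the groups of positive degree of an algebraically closed field vanish and that the
fields `K` and `K(t)` have the same unramified classes of degree `i ≥ 2`.
-/

namespace Pool.Agent.Results.MP_859dd5_ag.SupersingularDichotomy

open UnrA UnrA.Fer UnrGal WeierstrassCurve

universe u z

theorem result {κ : Type u} [Field κ] [Finite κ] {p : ℕ} [CharP κ p] {E : WeierstrassCurve κ}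
    (hE : IsSupersingular E) :
    ∃ A₀ : UFun.{u, u + 1}, ∀ n d : ℕ, ∃ N : ℕ, 0 < N ∧
      ∀ (k K L : Type u) [Field k] [Field K] [Field L] [Algebra κ k] [Algebra κ K] [Algebra κ L]
        [Algebra k K] [Algebra k L] [Algebra K L] [IsScalarTower κ k K] [IsScalarTower κ k L]
        [IsScalarTower κ K L] [IsScalarTower k K L] (x y : Fin n → L) (r : ℕ) (v : Fin r → L),
        IsPower E k x y → IsFiniteOver K v → degreeOver K v = d →
        (∃ T : Fin n → (E⁄K).toAffine.Point, (∀ A : UFun.{u, z}, UnrA.FromPoints A N k T) ∧
          ∀ w i, 2 ≤ i → UnrGal.FromPoints p w i N k T) ∧
        (HasConstantPoints E k K → ∀ (K₀ : Type u) [Field K₀] [Algebra K₀ K],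
          (∀ A : UFun.{u, z}, IsBoundedBy A N k K₀ K) ∧
            ∀ w i, 2 ≤ i → IsBounded p w i N k K₀ K) ∧
        (∀ (D : ℕ) (K₀ : Type u) [Field K₀] [Algebra K₀ K],
          (∀ A : UFun.{u, z}, UnrA.CurveDescends A D E k → IsBoundedBy A (N * D) k K₀ K) ∧
            ∀ w i, 2 ≤ i → UnrGal.CurveDescends p w i D E k → IsBounded p w i (N * D) k K₀ K) ∧
        (¬ HasConstantPoints E k K →
          (∃ ξ ∈ A₀.nr K, ∀ (D : ℕ) (c : A₀.obj k), 0 < D →
            D • ξ ≠ A₀.map (algebraMap k K) c) ∧
          ∃ δ : ℕ, 0 < δ ∧ ∀ D : ℕ,
            (∀ A : UFun.{u, z}, KillsRel A D k K → UnrA.CurveDescends A (δ * D) E k) ∧
              ∀ w i, 2 ≤ i → Descends p w i D k K K →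
                UnrGal.CurveDescends p w i (δ * D) E k) :=
  supersingular_main hE

end Pool.Agent.Results.MP_859dd5_ag.SupersingularDichotomy
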